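import Pool.Agent.H507R3.CMIbp

/-!
# MP_5aaff8_an: rank unique continuation fails for constraint maps with convex obstacle

`M` is the exterior of the closed unit ball of `ℝ^m`; the obstacle `Mᶜ` is the closed unit ball,
which is convex.  The map `u(x) = cosh(x₂⁺) (cos x₁, sin x₁, 0, …, 0)` on the open unit cube
`{|x_i| < 1/2}` is a minimizing constraint map, has rank `1` where `x₂ < 0` and rank `2` where
`x₂ > 0`.
-/

set_option autoImplicit false
open MeasureTheory Set Filter Topology
open scoped ContDiff RealInnerProductSpace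

namespace Pool.Agent.Results.MP_5aaff8_an.ExteriorBallRankJump

/-- `ℝ^n` with its Euclidean norm. -/
abbrev E (n : ℕ) : Type := EuclideanSpace ℝ (Fin n)

/-- `Du` is the weak derivative of `u` on the open set `Ω`. -/
def IsWeakDeriv {n m : ℕ} (Ω : Set (E n)) (u : E n → E m) (Du : E n → E n →L[ℝ] E m) : Prop :=
  ∀ φ : E n → ℝ, ContDiff ℝ ∞ φ → HasCompactSupport φ → tsupport φ ⊆ Ω → ∀ e : E n,
    ∫ x in Ω, fderiv ℝ φ x e • u x = - ∫ x in Ω, φ x • Du x e

/-- `u ∈ W^{1,2}(Ω; ℝ^m)` with weak derivative `Du`. -/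
def W12 {n m : ℕ} (Ω : Set (E n)) (u : E n → E m) (Du : E n → E n →L[ℝ] E m) : Prop :=
  MemLp u 2 (volume.restrict Ω) ∧ MemLp Du 2 (volume.restrict Ω) ∧ IsWeakDeriv Ω u Du

/-- `|L|²`, the sum of the squares of the entries of the matrix of `L`. -/
noncomputable def dens {n m : ℕ} (L : E n →L[ℝ] E m) : ℝ :=
  ∑ i : Fin n, ‖L (EuclideanSpace.single i 1)‖ ^ 2

/-- The rank of a linear map. -/
noncomputable def rk {n m : ℕ} (L : E n →L[ℝ] E m) : ℕ :=
  Module.finrank ℝ (LinearMap.range (L : E n →ₗ[ℝ] E m))

/-- `u` (with weak derivative `Du`) is a minimizing constraint map `Ω → closure M`. -/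
def IsMinimizingConstraintMap {n m : ℕ} (M : Set (E m)) (Ω : Set (E n)) (u : E n → E m)
    (Du : E n → E n →L[ℝ] E m) : Prop :=
  W12 Ω u Du ∧ (∀ᵐ x ∂(volume.restrict Ω), u x ∈ closure M) ∧
  ∀ Ω' : Set (E n), IsOpen Ω' → IsCompact (closure Ω') → closure Ω' ⊆ Ω →
    ∀ (v : E n → E m) (Dv : E n → E n →L[ℝ] E m), W12 Ω v Dv →
      (∀ᵐ x ∂(volume.restrict Ω), v x ∈ closure M) →
      (∀ᵐ x ∂(volume.restrict Ω), x ∉ Ω' → v x = u x) →
      ∫ x in Ω', dens (Du x) ≤ ∫ x in Ω', dens (Dv x)

/-- A domain with smooth boundary: open, connected, and near each boundary point it is the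
positivity set of a smooth function with nonvanishing derivative. -/
def SmoothDomain {m : ℕ} (M : Set (E m)) : Prop :=
  IsOpen M ∧ IsConnected M ∧ ∀ p ∈ frontier M, ∃ (U : Set (E m)) (f : E m → ℝ),
    IsOpen U ∧ p ∈ U ∧ ContDiff ℝ ∞ f ∧ (∀ x ∈ U, fderiv ℝ f x ≠ 0) ∧ M ∩ U = {x ∈ U | 0 < f x}

/-- The exterior of the closed unit ball. -/
def extBall (m : ℕ) : Set (E m) := (Metric.closedBall 0 1)ᶜ

open Pool.Agent.H507R3.CM

lemma closure_extBall (m : ℕ) : closure (extBall m) = {y : E m | 1 ≤ ‖y‖} := by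
  unfold extBall
  rw [closure_compl, interior_closedBall _ (by norm_num)]
  ext y
  simp

lemma extBall_smooth {m : ℕ} (hm : 2 ≤ m) : SmoothDomain (extBall m) := by
  refine ⟨Metric.isClosed_closedBall.isOpen_compl, ?_, ?_⟩
  · -- connected
    have hr : 1 < Module.rank ℝ (E m) := by
      rw [rank_eq_card_basis (EuclideanSpace.basisFun (Fin m) ℝ).toBasis, Fintype.card_fin]
      exact_mod_cast hm
    have h1 : IsConnected (Metric.sphere (0 : E m) 1) := isConnected_sphere hr 0 (by norm_num)
    have h2 : IsConnected (Ioi (1:ℝ)) := isConnected_Ioi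
    have h3 := (h2.prod h1).image (fun p : ℝ × E m => p.1 • p.2)
      (continuous_fst.smul continuous_snd).continuousOn
    have h4 : (fun p : ℝ × E m => p.1 • p.2) '' (Ioi (1:ℝ) ×ˢ Metric.sphere (0 : E m) 1)
        = extBall m := by
      ext y
      simp only [extBall, mem_image, mem_prod, mem_Ioi, mem_sphere_zero_iff_norm, mem_compl_iff,
        mem_closedBall_zero_iff, not_le, Prod.exists]
      constructor
      · rintro ⟨r, z, ⟨hr, hz⟩, rfl⟩
        rw [norm_smul, hz, mul_one, Real.norm_eq_abs, abs_of_pos (by linarith)]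
        exact hr
      · intro hy
        refine ⟨‖y‖, ‖y‖⁻¹ • y, ⟨hy, ?_⟩, ?_⟩
        · rw [norm_smul, norm_inv, norm_norm, inv_mul_cancel₀ (by linarith)]
        · rw [smul_smul, mul_inv_cancel₀ (by linarith), one_smul]
    rw [← h4]; exact h3
  · intro p hp
    have hp1 : ‖p‖ = 1 := by
      unfold extBall at hp
      rw [frontier_compl, frontier_closedBall _ (by norm_num)] at hp
      simpa using hp
    refine ⟨{0}ᶜ, fun x => ‖x‖^2 - 1, isOpen_compl_singleton, ?_, ?_, ?_, ?_⟩
    · intro h0
      rw [mem_singleton_iff] at h0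
      rw [h0, norm_zero] at hp1
      norm_num at hp1
    · exact (contDiff_norm_sq ℝ).sub contDiff_const
    · intro x hx h0
      have h1 : HasFDerivAt (fun x : E m => ‖x‖^2 - 1) (2 • innerSL ℝ x) x :=
        (hasStrictFDerivAt_norm_sq x).hasFDerivAt.sub_const 1
      rw [h1.fderiv] at h0
      have h2 := congrArg (fun L => L x) h0
      have h3 : (2:ℝ) * ‖x‖^2 = 0 := by
        simpa [real_inner_self_eq_norm_sq] using h2
      apply hx
      have : ‖x‖ = 0 := by nlinarith [norm_nonneg x]
      exact norm_eq_zero.mp this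
    · ext x
      simp only [extBall, mem_inter_iff, mem_compl_iff, mem_closedBall_zero_iff, not_le,
        mem_setOf_eq]
      constructor
      · rintro ⟨h1, h2⟩
        exact ⟨h2, by nlinarith⟩
      · rintro ⟨h1, h2⟩
        refine ⟨?_, h1⟩
        nlinarith [norm_nonneg x]

section map

variable {n m : ℕ} {a b : E m} (i0 i1 : Fin n)

lemma uM_weak (a b : E m) : IsWeakDeriv (cube n) (uM a b i0 i1) (DuM a b i0 i1) := by
  intro φ hφ hφc hφs e
  have hcu : Continuous (uM a b i0 i1) := uM_continuous a b i0 i1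
  have hcD : Continuous (DuM a b i0 i1) := DuM_continuous a b i0 i1
  have hfd : Continuous (fun x => fderiv ℝ φ x e) :=
    (hφ.continuous_fderiv (by norm_num)).clm_apply continuous_const
  have hsf : HasCompactSupport (fun x => fderiv ℝ φ x e) := hφc.fderiv_apply ℝ e
  have i1' : Integrable (fun x => fderiv ℝ φ x e • uM a b i0 i1 x) :=
    (hfd.smul hcu).integrable_of_hasCompactSupport hsf.smul_right
  have i3' : Integrable (fun x => φ x • uM a b i0 i1 x) :=
    (hφ.continuous.smul hcu).integrable_of_hasCompactSupport hφc.smul_right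
  have hDe : Continuous (fun x => DuM a b i0 i1 x e) := hcD.clm_apply continuous_const
  have hfe : ∀ x, fderiv ℝ (uM a b i0 i1) x = DuM a b i0 i1 x := fun x =>
    (uM_hasFDerivAt a b i0 i1 x).fderiv
  have i2' : Integrable (fun x => φ x • fderiv ℝ (uM a b i0 i1) x e) := by
    simp only [hfe]
    exact (hφ.continuous.smul hDe).integrable_of_hasCompactSupport hφc.smul_right
  have h := integral_smul_fderiv_eq_neg_fderiv_smul_of_integrable (μ := volume) i1' i2' i3'
    (fun x _ => hφ.differentiable (by norm_num) x)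
    (fun x _ => (uM_hasFDerivAt a b i0 i1 x).differentiableAt)
  simp only [hfe] at h
  rw [setIntegral_eq_integral_of_forall_compl_eq_zero,
    setIntegral_eq_integral_of_forall_compl_eq_zero, h, neg_neg]
  · intro x hx
    have : x ∉ tsupport φ := fun h => hx (hφs h)
    rw [image_eq_zero_of_notMem_tsupport this, zero_smul]
  · intro x hx
    have : x ∉ tsupport φ := fun h => hx (hφs h)
    have h2 : fderiv ℝ φ x = 0 := by
      have h3 : x ∉ tsupport (fderiv ℝ φ) := fun h => this (tsupport_fderiv_subset ℝ h)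
      exact image_eq_zero_of_notMem_tsupport h3
    rw [h2]; simp

lemma cont_memLp {G : Type*} [NormedAddCommGroup G] {f : E n → G} [SecondCountableTopologyEither (E n) G]
    (hf : Continuous f) : MemLp f 2 (volume.restrict (cube n)) := by
  have hfinm : IsFiniteMeasure (volume.restrict (cube n)) :=
    ⟨by rw [Measure.restrict_apply_univ]; exact cube_fin n⟩
  have hcK : IsCompact (closure (cube n)) := (cube_bounded n).isCompact_closure
  obtain ⟨C, hC⟩ := hcK.exists_bound_of_continuousOn hf.continuousOn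
  refine MemLp.of_bound hf.aestronglyMeasurable C ?_
  rw [ae_restrict_iff' (cube_open n).measurableSet]
  exact Filter.Eventually.of_forall fun x hx => hC x (subset_closure hx)

lemma uM_W12 (a b : E m) : W12 (cube n) (uM a b i0 i1) (DuM a b i0 i1) :=
  ⟨cont_memLp (uM_continuous a b i0 i1), cont_memLp (DuM_continuous a b i0 i1), uM_weak i0 i1 a b⟩

lemma uM_norm_ge (ha : ‖a‖ = 1) (hb : ‖b‖ = 1) (hab : ⟪a, b⟫ = 0) (x : E n) :
    1 ≤ ‖uM a b i0 i1 x‖ := by
  unfold uM
  rw [norm_smul, TT_norm ha hb hab, mul_one, Real.norm_eq_abs]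
  unfold ch
  exact (Real.one_le_cosh _).trans (le_abs_self _)

lemma DuM_e0 (hne : i0 ≠ i1) (x : E n) :
    DuM a b i0 i1 x (EuclideanSpace.single i0 1) = ch (x i1) • TN a b (x i0) := by
  unfold DuM
  simp [hne.symm]

lemma DuM_e1 (hne : i0 ≠ i1) (x : E n) :
    DuM a b i0 i1 x (EuclideanSpace.single i1 1) = sh (x i1) • TT a b (x i0) := by
  unfold DuM
  simp [hne]

lemma DuM_e {i : Fin n} (h0 : i ≠ i0) (h1 : i ≠ i1) (x : E n) :
    DuM a b i0 i1 x (EuclideanSpace.single i 1) = 0 := by
  unfold DuM
  simp [h0.symm, h1.symm]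

/-- The energy inequality. -/
lemma uM_min (hne : i0 ≠ i1) (ha : ‖a‖ = 1) (hb : ‖b‖ = 1) (hab : ⟪a, b⟫ = 0)
    {Ω' : Set (E n)} (hΩ' : IsOpen Ω') (hcomp : IsCompact (closure Ω'))
    (hsub : closure Ω' ⊆ cube n) {v : E n → E m} {Dv : E n → E n →L[ℝ] E m}
    (hv : W12 (cube n) v Dv) (hvM : ∀ᵐ x ∂(volume.restrict (cube n)), 1 ≤ ‖v x‖)
    (hvu : ∀ᵐ x ∂(volume.restrict (cube n)), x ∉ Ω' → v x = uM a b i0 i1 x) :
    ∫ x in Ω', dens (DuM a b i0 i1 x) ≤ ∫ x in Ω', dens (Dv x) := by
  have hfinm : IsFiniteMeasure (volume.restrict (cube n)) :=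
    ⟨by rw [Measure.restrict_apply_univ]; exact cube_fin n⟩
  have hu := uM_W12 (n := n) (m := m) i0 i1 a b
  set u := uM a b i0 i1 with hudef
  set Du := DuM a b i0 i1 with hDudef
  set w : E n → E m := fun x => v x - u x with hwdef
  set D : E n → E n →L[ℝ] E m := fun x => Dv x - Du x with hDdef
  have hw : MemLp w 2 (volume.restrict (cube n)) := hv.1.sub hu.1
  have hD : MemLp D 2 (volume.restrict (cube n)) := hv.2.1.sub hu.2.1
  have hwi : Integrable w (volume.restrict (cube n)) := hw.integrable (by norm_num)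
  have hDi : ∀ e, MemLp (fun x => D x e) 2 (volume.restrict (cube n)) := fun e =>
    ((ContinuousLinearMap.apply ℝ (E m) e).comp_memLp' hD)
  have hDvi : ∀ e, MemLp (fun x => Dv x e) 2 (volume.restrict (cube n)) := fun e =>
    ((ContinuousLinearMap.apply ℝ (E m) e).comp_memLp' hv.2.1)
  have hDui : ∀ e, MemLp (fun x => Du x e) 2 (volume.restrict (cube n)) := fun e =>
    ((ContinuousLinearMap.apply ℝ (E m) e).comp_memLp' hu.2.1)
  have hcK : IsCompact (closure (cube n)) := (cube_bounded n).isCompact_closure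
  -- weak identity for the difference
  have hweak : ∀ φ : E n → ℝ, ContDiff ℝ ∞ φ → HasCompactSupport φ →
      tsupport φ ⊆ cube n → ∀ e : E n,
      ∫ x in cube n, fderiv ℝ φ x e • w x = - ∫ x in cube n, φ x • D x e := by
    intro φ hφ hφc hφs e
    have h1 := hv.2.2 φ hφ hφc hφs e
    have h2 := hu.2.2 φ hφ hφc hφs e
    have hmul : ∀ (ρ : E n → ℝ) (_ : Continuous ρ)
        (G : E n → E m), Integrable G (volume.restrict (cube n)) →
        Integrable (fun x => ρ x • G x) (volume.restrict (cube n)) := by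
      intro ρ hρ G hG
      obtain ⟨C, hC⟩ := hcK.exists_bound_of_continuousOn hρ.continuousOn
      refine hG.bdd_smul C hρ.aestronglyMeasurable ?_
      rw [ae_restrict_iff' (cube_open n).measurableSet]
      exact Filter.Eventually.of_forall fun x hx => hC x (subset_closure hx)
    have hfd : Continuous (fun x => fderiv ℝ φ x e) :=
      (hφ.continuous_fderiv (by norm_num)).clm_apply continuous_const
    have a1 := hmul _ hfd _ (hv.1.integrable (by norm_num))
    have a2 := hmul _ hfd _ (hu.1.integrable (by norm_num))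
    have a3 := hmul _ hφ.continuous _ ((hDvi e).integrable (by norm_num))
    have a4 := hmul _ hφ.continuous _ ((hDui e).integrable (by norm_num))
    have e1 : ∫ x in cube n, fderiv ℝ φ x e • w x
        = ∫ x in cube n, (fderiv ℝ φ x e • v x - fderiv ℝ φ x e • u x) := by
      congr 1; ext1 x; simp only [hwdef, smul_sub]
    have e2 : ∫ x in cube n, φ x • D x e
        = ∫ x in cube n, (φ x • Dv x e - φ x • Du x e) := by
      congr 1; ext1 x
      show φ x • (Dv x e - Du x e) = _
      rw [smul_sub]
    rw [e1, e2, integral_sub a1 a2, integral_sub a3 a4, h1, h2]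
    abel
  have hz : ∀ᵐ x ∂(volume.restrict (cube n)), x ∉ Ω' → w x = 0 := by
    filter_upwards [hvu] with x hx hxn
    simp only [hwdef]
    rw [hx hxn, sub_self]
  have hoff := deriv_off hcomp hsub hw hD hweak hz hΩ'
  have hpoi := poincare_cube hcomp hsub hw hD hweak hz i0
  have hibp := ibp hcomp hsub hw hD hweak hz i0 i1 hne ha hb hab
  set e0 : E n := EuclideanSpace.single i0 1 with he0
  set e1 : E n := EuclideanSpace.single i1 1 with he1
  -- integrability of the densities
  have hdv : Integrable (fun x => dens (Dv x)) (volume.restrict (cube n)) := by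
    unfold dens
    exact integrable_finsetSum _ fun i _ => (hDvi _).integrable_norm_pow (by norm_num)
  have hdu : Integrable (fun x => dens (Du x)) (volume.restrict (cube n)) := by
    unfold dens
    exact integrable_finsetSum _ fun i _ => (hDui _).integrable_norm_pow (by norm_num)
  have hw2 : Integrable (fun x => ‖w x‖^2) (volume.restrict (cube n)) :=
    hw.integrable_norm_pow (by norm_num)
  have hD2 : Integrable (fun x => ‖D x e0‖^2) (volume.restrict (cube n)) :=
    (hDi e0).integrable_norm_pow (by norm_num)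
  -- reduction to the cube
  have hΩc : Ω' ⊆ cube n := subset_closure.trans hsub
  have hred : ∫ x in cube n, (dens (Dv x) - dens (Du x))
      = ∫ x in Ω', (dens (Dv x) - dens (Du x)) := by
    rw [← Measure.restrict_restrict_of_subset hΩc]
    symm
    apply setIntegral_eq_integral_of_ae_compl_eq_zero
    filter_upwards [hoff] with x hx hxn
    have h1 : Dv x = Du x := by
      have := hx hxn
      simp only [hDdef] at this
      exact sub_eq_zero.mp this
    rw [h1, sub_self]
  have hfin : 0 ≤ ∫ x in cube n, (dens (Dv x) - dens (Du x)) := by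
    set A : E n → ℝ := fun x => (⟪ch (x i1) • TN a b (x i0), D x e0⟫
        + ⟪sh (x i1) • TT a b (x i0), D x e1⟫
        - (if x i1 ≤ 0 then ⟪TT a b (x i0), w x⟫ else 0)) with hA
    have hAi : Integrable A (volume.restrict (cube n)) := by
      have hmul : ∀ (Q : E n → E m) (_ : Continuous Q)
          (G : E n → E m), Integrable G (volume.restrict (cube n)) →
          Integrable (fun x => ⟪Q x, G x⟫) (volume.restrict (cube n)) := by
        intro Q hQ G hG
        obtain ⟨C, hC⟩ := hcK.exists_bound_of_continuousOn hQ.continuousOn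
        refine Integrable.mono' (hG.norm.const_mul C) ?_ ?_
        · exact hQ.aestronglyMeasurable.inner hG.aestronglyMeasurable
        · rw [ae_restrict_iff' (cube_open n).measurableSet]
          refine Filter.Eventually.of_forall fun x hx => ?_
          calc ‖⟪Q x, G x⟫‖ ≤ ‖Q x‖ * ‖G x‖ := norm_inner_le_norm _ _
            _ ≤ C * ‖G x‖ := by gcongr; exact hC x (subset_closure hx)
      have c0 : Continuous fun x : E n => x i0 := by fun_prop
      have c1 : Continuous fun x : E n => x i1 := by fun_prop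
      have k1 : Continuous fun x : E n => ch (x i1) • TN a b (x i0) :=
        (ch_continuous.comp c1).smul ((TN_contDiff a b).continuous.comp c0)
      have k2 : Continuous fun x : E n => sh (x i1) • TT a b (x i0) :=
        (sh_continuous.comp c1).smul ((TT_contDiff a b).continuous.comp c0)
      have k3 : Continuous fun x : E n => TT a b (x i0) := (TT_contDiff a b).continuous.comp c0
      have j1 := hmul _ k1 _ ((hDi e0).integrable (by norm_num))
      have j2 := hmul _ k2 _ ((hDi e1).integrable (by norm_num))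
      have j3 := hmul _ k3 _ hwi
      have hms : MeasurableSet {x : E n | x i1 ≤ 0} := measurableSet_le c1.measurable measurable_const
      have j4 : Integrable (fun x : E n => if x i1 ≤ 0 then ⟪TT a b (x i0), w x⟫ else 0)
          (volume.restrict (cube n)) := by
        have : (fun x : E n => if x i1 ≤ 0 then ⟪TT a b (x i0), w x⟫ else 0)
            = {x : E n | x i1 ≤ 0}.indicator (fun x => ⟪TT a b (x i0), w x⟫) := by
          funext x
          by_cases hx : x i1 ≤ 0
          · rw [if_pos hx, indicator_of_mem (by exact hx)]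
          · rw [if_neg hx, indicator_of_notMem (by exact hx)]
        rw [this]
        exact j3.indicator hms
      exact (j1.add j2).sub j4
    have hA0 : ∫ x in cube n, A x = 0 := hibp
    have hpt : ∀ᵐ x ∂(volume.restrict (cube n)),
        2 * A x - ‖w x‖^2 + ‖D x e0‖^2 ≤ dens (Dv x) - dens (Du x) := by
      filter_upwards [hvM] with x hx
      have hexp : dens (Dv x) - dens (Du x)
          = ∑ i : Fin n, (2 * ⟪Du x (EuclideanSpace.single i 1), D x (EuclideanSpace.single i 1)⟫
            + ‖D x (EuclideanSpace.single i 1)‖^2) := by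
        unfold dens
        rw [← Finset.sum_sub_distrib]
        apply Finset.sum_congr rfl
        intro i _
        have h1 : Dv x (EuclideanSpace.single i 1)
            = Du x (EuclideanSpace.single i 1) + D x (EuclideanSpace.single i 1) := by
          show _ = _ + (Dv x (EuclideanSpace.single i 1) - Du x (EuclideanSpace.single i 1))
          abel
        rw [h1, norm_add_sq_real]
        ring
      rw [hexp, Finset.sum_add_distrib, ← Finset.mul_sum]
      have hs1 : ∑ i : Fin n, ⟪Du x (EuclideanSpace.single i 1), D x (EuclideanSpace.single i 1)⟫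
          = ⟪ch (x i1) • TN a b (x i0), D x e0⟫ + ⟪sh (x i1) • TT a b (x i0), D x e1⟫ := by
        rw [← Finset.sum_subset (Finset.subset_univ ({i0, i1} : Finset (Fin n)))]
        · rw [Finset.sum_pair hne, hDudef, DuM_e0 i0 i1 hne, DuM_e1 i0 i1 hne]
        · intro i _ hi
          simp only [Finset.mem_insert, Finset.mem_singleton, not_or] at hi
          rw [hDudef, DuM_e i0 i1 hi.1 hi.2, inner_zero_left]
      have hs2 : ‖D x e0‖^2 ≤ ∑ i : Fin n, ‖D x (EuclideanSpace.single i 1)‖^2 :=
        Finset.single_le_sum (f := fun i => ‖D x (EuclideanSpace.single i 1)‖^2)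
          (fun i _ => sq_nonneg _) (Finset.mem_univ i0)
      have hs3 : -‖w x‖^2 ≤ 2 * (if x i1 ≤ 0 then ⟪TT a b (x i0), w x⟫ else 0) := by
        by_cases hxi : x i1 ≤ 0
        · rw [if_pos hxi]
          have hux : u x = TT a b (x i0) := by
            rw [hudef]; unfold uM
            have : ch (x i1) = 1 := by unfold ch; rw [max_eq_right hxi]; simp
            rw [this, one_smul]
          have hvx : v x = TT a b (x i0) + w x := by
            simp only [hwdef]; rw [hux]; abel
          have h2 : 1 ≤ ‖TT a b (x i0) + w x‖^2 := by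
            rw [← hvx]; nlinarith
          rw [norm_add_sq_real, TT_norm ha hb hab] at h2
          linarith
        · rw [if_neg hxi, mul_zero]
          nlinarith [sq_nonneg ‖w x‖]
      rw [hs1]
      simp only [hA]
      linarith
    have hint : Integrable (fun x => 2 * A x - ‖w x‖^2 + ‖D x e0‖^2) (volume.restrict (cube n)) :=
      ((hAi.const_mul 2).sub hw2).add hD2
    have hmono := integral_mono_ae hint (hdv.sub hdu) hpt
    have hcalc : ∫ x in cube n, (2 * A x - ‖w x‖^2 + ‖D x e0‖^2)
        = 2 * (∫ x in cube n, A x) - (∫ x in cube n, ‖w x‖^2) + (∫ x in cube n, ‖D x e0‖^2) := by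
      have q1 : Integrable (fun x => 2 * A x - ‖w x‖^2) (volume.restrict (cube n)) :=
        (hAi.const_mul 2).sub hw2
      rw [integral_add q1 hD2, integral_sub (hAi.const_mul 2) hw2, integral_const_mul]
    rw [hcalc, hA0] at hmono
    have : (0:ℝ) ≤ 2 * 0 - (∫ x in cube n, ‖w x‖^2) + (∫ x in cube n, ‖D x e0‖^2) := by linarith
    exact this.trans hmono
  rw [hred] at hfin
  have r1 : Integrable (fun x => dens (Dv x)) (volume.restrict Ω') :=
    hdv.mono_measure (Measure.restrict_mono hΩc le_rfl)
  have r2 : Integrable (fun x => dens (Du x)) (volume.restrict Ω') :=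
    hdu.mono_measure (Measure.restrict_mono hΩc le_rfl)
  rw [integral_sub r1 r2] at hfin
  linarith

/-- rank at most one where `x₂ < 0` -/
lemma rk_le (x : E n) (hx : x i1 < 0) : rk (DuM a b i0 i1 x) ≤ 1 := by
  unfold rk
  have hs : sh (x i1) = 0 := by unfold sh; rw [max_eq_right hx.le]; simp
  have h1 : LinearMap.range (DuM a b i0 i1 x : E n →ₗ[ℝ] E m)
      ≤ Submodule.span ℝ {ch (x i1) • TN a b (x i0)} := by
    rintro _ ⟨y, rfl⟩
    rw [Submodule.mem_span_singleton]
    refine ⟨y i0, ?_⟩
    show _ = DuM a b i0 i1 x y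
    unfold DuM
    rw [hs]
    simp
  calc _ ≤ Module.finrank ℝ (Submodule.span ℝ {ch (x i1) • TN a b (x i0)}) :=
        Submodule.finrank_mono h1
    _ ≤ 1 := by
      have := finrank_span_le_card (R := ℝ) ({ch (x i1) • TN a b (x i0)} : Set (E m))
      simpa using this

/-- rank at least two where `x₂ > 0` -/
lemma rk_ge (hne : i0 ≠ i1) (ha : ‖a‖ = 1) (hb : ‖b‖ = 1) (hab : ⟪a, b⟫ = 0)
    (x : E n) (hx : 0 < x i1) : 2 ≤ rk (DuM a b i0 i1 x) := by
  unfold rk
  have hsh : 0 < sh (x i1) := by
    unfold sh; rw [max_eq_left hx.le]; exact Real.sinh_pos_iff.mpr hx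
  have hch : 0 < ch (x i1) := by unfold ch; exact Real.cosh_pos _
  have hli : LinearIndependent ℝ ![TN a b (x i0), TT a b (x i0)] := by
    rw [LinearIndependent.pair_iff]
    intro s t hst
    have h1 := congrArg (fun z => ⟪TN a b (x i0), z⟫) hst
    have h2 := congrArg (fun z => ⟪TT a b (x i0), z⟫) hst
    simp only [inner_add_right, inner_smul_right, inner_zero_right, TN_inner_self ha hb hab,
      TT_inner_self ha hb hab, TT_TN ha hb hab] at h1 h2
    rw [real_inner_comm, TT_TN ha hb hab] at h1
    constructor <;> linarith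
  have hsub : Submodule.span ℝ (Set.range ![TN a b (x i0), TT a b (x i0)])
      ≤ LinearMap.range (DuM a b i0 i1 x : E n →ₗ[ℝ] E m) := by
    rw [Submodule.span_le]
    rintro _ ⟨j, rfl⟩
    fin_cases j
    · refine ⟨(ch (x i1))⁻¹ • EuclideanSpace.single i0 1, ?_⟩
      show DuM a b i0 i1 x _ = TN a b (x i0)
      rw [map_smul, DuM_e0 i0 i1 hne, smul_smul, inv_mul_cancel₀ hch.ne', one_smul]
    · refine ⟨(sh (x i1))⁻¹ • EuclideanSpace.single i1 1, ?_⟩
      show DuM a b i0 i1 x _ = TT a b (x i0)
      rw [map_smul, DuM_e1 i0 i1 hne, smul_smul, inv_mul_cancel₀ hsh.ne', one_smul]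
  have h3 := finrank_span_eq_card hli
  have h4 := Submodule.finrank_mono hsub
  rw [h3, Fintype.card_fin] at h4
  exact h4

end map

/-- For all `n, m ≥ 2` there are a smooth domain `M ⊂ ℝ^m` with convex complement and a minimizing
constraint map on a connected open `Ω ⊂ ℝ^n` whose derivative has rank `≤ 1` on a nonempty open
subset of `Ω` and rank `≥ 2` on another nonempty open subset of `Ω`. -/
theorem result (n m : ℕ) (hn : 2 ≤ n) (hm : 2 ≤ m) :
    ∃ M : Set (E m), SmoothDomain M ∧ Convex ℝ Mᶜ ∧
    ∃ (Ω : Set (E n)) (u : E n → E m) (Du : E n → E n →L[ℝ] E m),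
      IsOpen Ω ∧ IsConnected Ω ∧ IsMinimizingConstraintMap M Ω u Du ∧
      (∃ U : Set (E n), IsOpen U ∧ U.Nonempty ∧ U ⊆ Ω ∧ ∀ x ∈ U, rk (Du x) ≤ 1) ∧
      (∃ V : Set (E n), IsOpen V ∧ V.Nonempty ∧ V ⊆ Ω ∧ ∀ x ∈ V, 2 ≤ rk (Du x)) := by
  let i0 : Fin n := ⟨0, by omega⟩
  let i1 : Fin n := ⟨1, by omega⟩
  let j0 : Fin m := ⟨0, by omega⟩
  let j1 : Fin m := ⟨1, by omega⟩
  have hne : i0 ≠ i1 := by simp [i0, i1]
  have hnj : j0 ≠ j1 := by simp [j0, j1]
  set a : E m := EuclideanSpace.single j0 1 with hadef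
  set b : E m := EuclideanSpace.single j1 1 with hbdef
  have ha : ‖a‖ = 1 := by simp [hadef]
  have hb : ‖b‖ = 1 := by simp [hbdef]
  have hab : ⟪a, b⟫ = 0 := by
    rw [hadef, EuclideanSpace.inner_single_left, hbdef, PiLp.single_apply, if_neg hnj]
    simp
  refine ⟨extBall m, extBall_smooth hm, ?_, cube n, uM a b i0 i1, DuM a b i0 i1, cube_open n,
    ⟨⟨0, zero_mem_cube n⟩, (cube_convex n).isPreconnected⟩, ⟨uM_W12 i0 i1 a b, ?_, ?_⟩, ?_, ?_⟩
  · unfold extBall
    rw [compl_compl]
    exact convex_closedBall 0 1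
  · rw [closure_extBall]
    exact Filter.Eventually.of_forall fun x => uM_norm_ge i0 i1 ha hb hab x
  · intro Ω' hΩ' hcomp hsub v Dv hv hvM hvu
    rw [closure_extBall] at hvM
    exact uM_min i0 i1 hne ha hb hab hΩ' hcomp hsub hv hvM hvu
  · have c1 : Continuous fun x : E n => x i1 := by fun_prop
    refine ⟨cube n ∩ {x | x i1 < 0}, (cube_open n).inter (isOpen_lt c1 continuous_const), ?_,
      inter_subset_left, fun x hx => rk_le i0 i1 x hx.2⟩
    refine ⟨EuclideanSpace.single i1 (-1/4), ?_, ?_⟩
    · intro i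
      rw [PiLp.single_apply]
      split_ifs
      · rw [abs_lt]; constructor <;> norm_num
      · norm_num
    · show (EuclideanSpace.single i1 (-1/4 : ℝ) : E n) i1 < 0
      rw [PiLp.single_apply, if_pos rfl]; norm_num
  · have c1 : Continuous fun x : E n => x i1 := by fun_prop
    refine ⟨cube n ∩ {x | 0 < x i1}, (cube_open n).inter (isOpen_lt continuous_const c1), ?_,
      inter_subset_left, fun x hx => rk_ge i0 i1 hne ha hb hab x hx.2⟩
    refine ⟨EuclideanSpace.single i1 (1/4), ?_, ?_⟩
    · intro i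
      rw [PiLp.single_apply]
      split_ifs
      · rw [abs_lt]; constructor <;> norm_num
      · norm_num
    · show 0 < (EuclideanSpace.single i1 (1/4 : ℝ) : E n) i1
      rw [PiLp.single_apply, if_pos rfl]; norm_num

end Pool.Agent.Results.MP_5aaff8_an.ExteriorBallRankJump
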